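import Mathlib
import Pool.Agent.W13.Count

set_option autoImplicit false

namespace Pool.Agent.Results.MP_5a23e6_co.GrowthBase

open Pool.Agent

theorem one_le_card (n : ℕ) (hn : 1 ≤ n) : 1 ≤ (W13.detSet n).ncard := by
  by_cases h1 : n = 1
  · subst h1
    have h2 : (1 : ℤ) ∈ W13.detSet 1 := by
      refine ⟨Matrix.of fun _ _ => 1, fun _ _ => Or.inl rfl, ?_⟩
      rw [Matrix.det_fin_one]
      norm_num
    rw [Nat.one_le_iff_ne_zero, Ne, Set.ncard_eq_zero (W13.detSet_finite 1)]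
    intro h
    rw [h] at h2
    exact h2
  · have h3 := W13.card_detSet 0 (n - 2) n (by omega) (Or.inl rfl)
    simpa using h3

/-- There is `c > 0` such that for every `n ≥ 1` the number of distinct normalised determinants
of `n × n` matrices with entries `±1` is at least `c · 2.02 ^ n`. -/
theorem result :
    ∃ c : ℝ, 0 < c ∧ ∀ n : ℕ, 1 ≤ n →
      c * (101 / 50 : ℝ) ^ n ≤
        ((Set.ncard {d : ℤ | ∃ M : Matrix (Fin n) (Fin n) ℤ,
            (∀ i j, M i j = 1 ∨ M i j = -1) ∧ M.det = 2 ^ (n - 1) * d}) : ℝ) := by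
  obtain ⟨K, hK⟩ : ∃ K : ℕ, K = 38568 + 17 := ⟨_, rfl⟩
  refine ⟨1 / (101 / 50 : ℝ) ^ K, by positivity, fun n hn => ?_⟩
  have hpos : (0 : ℝ) < (101 / 50 : ℝ) ^ K := by positivity
  show 1 / (101 / 50 : ℝ) ^ K * (101 / 50 : ℝ) ^ n ≤ ((W13.detSet n).ncard : ℝ)
  rw [one_div, inv_mul_le_iff₀ hpos]
  have hbase : (1 : ℝ) ≤ 101 / 50 := by norm_num
  by_cases h2 : n < K
  · have h1 : (1 : ℝ) ≤ ((W13.detSet n).ncard : ℝ) := by exact_mod_cast one_le_card n hn
    calc (101 / 50 : ℝ) ^ n ≤ (101 / 50 : ℝ) ^ K := pow_le_pow_right₀ hbase h2.le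
      _ = (101 / 50 : ℝ) ^ K * 1 := (mul_one _).symm
      _ ≤ _ := mul_le_mul_of_nonneg_left h1 hpos.le
  · obtain ⟨b, r, hr, hb⟩ : ∃ b r, r < 15 ∧ n - (38568 + 2) = 15 * b + r :=
      ⟨(n - (38568 + 2)) / 15, (n - (38568 + 2)) % 15, Nat.mod_lt _ (by norm_num),
        (Nat.div_add_mod _ _).symm⟩
    have h3 := W13.card_detSet b (38568 + r) n (by omega) (Or.inr (by omega))
    have h4 : (101 / 50 : ℝ) ^ (15 * b) ≤ (38568 : ℝ) ^ b := by
      rw [pow_mul]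
      exact pow_le_pow_left₀ (by positivity) (by norm_num) b
    have h5 : (38568 : ℝ) ^ b ≤ ((W13.detSet n).ncard : ℝ) := by exact_mod_cast h3
    calc (101 / 50 : ℝ) ^ n ≤ (101 / 50 : ℝ) ^ (K + 15 * b) :=
          pow_le_pow_right₀ hbase (by omega)
      _ = (101 / 50 : ℝ) ^ K * (101 / 50 : ℝ) ^ (15 * b) := by rw [pow_add]
      _ ≤ _ := mul_le_mul_of_nonneg_left (h4.trans h5) hpos.le

end Pool.Agent.Results.MP_5a23e6_co.GrowthBase
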